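import Pool.Agent.N356.SP.Defs

/-!
# LS10: the real inequality behind the two block inequality (written by helper50)
-/

set_option autoImplicit false

namespace Pool.Agent.N50.LS

/-- the cubic inequality and the value of `b` on one interval give the result -/
theorem fin {c y w b y2 : ℝ} (hy0 : 0 ≤ y) (hy2 : y ≤ y2) (hy2' : 0 < y2)
    (hk : 0 ≤ c * w ^ 2 * (3 - w))
    (hE : 0 ≤ c * w ^ 2 * (3 - w) - y2 * (7 * (3 * w - 3 * w ^ 2 + w ^ 3) - 643785 / 100000 * w) +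
      y2 * b) :
    0 ≤ c * w ^ 2 * (3 - w) - y * (7 * (3 * w - 3 * w ^ 2 + w ^ 3) - 643785 / 100000 * w) +
      y * b := by
  have h1 : 0 ≤ (y2 - y) * (c * w ^ 2 * (3 - w)) := mul_nonneg (by linarith) hk
  have h2 := mul_nonneg hy0 hE
  have h3 : 0 ≤ y2 * (c * w ^ 2 * (3 - w) -
      y * (7 * (3 * w - 3 * w ^ 2 + w ^ 3) - 643785 / 100000 * w) + y * b) := by
    linarith
  exact nonneg_of_mul_nonneg_right h3 hy2'

/-- the cubic inequalities -/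
theorem cub {c w : ℝ} (hc : 3684 / 1000 ≤ c) (hw0 : 0 ≤ w) (hw1 : w ≤ 1) :
    (0 ≤ c * w ^ 2 * (3 - w) - (1 / 10) * (7 * (3 * w - 3 * w ^ 2 + w ^ 3) -
      643785 / 100000 * w) + (1 / 10) * (1 / 2)) ∧
    (0 ≤ c * w ^ 2 * (3 - w) - (1 / 5) * (7 * (3 * w - 3 * w ^ 2 + w ^ 3) -
      643785 / 100000 * w) + (1 / 5) * (79 / 100)) ∧
    (0 ≤ c * w ^ 2 * (3 - w) - (3 / 10) * (7 * (3 * w - 3 * w ^ 2 + w ^ 3) -
      643785 / 100000 * w) + (3 / 10) * (114 / 100)) ∧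
    (0 ≤ c * w ^ 2 * (3 - w) - (45 / 100) * (7 * (3 * w - 3 * w ^ 2 + w ^ 3) -
      643785 / 100000 * w) + (45 / 100) * (138 / 100)) ∧
    (0 ≤ c * w ^ 2 * (3 - w) - (62 / 100) * (7 * (3 * w - 3 * w ^ 2 + w ^ 3) -
      643785 / 100000 * w) + (62 / 100) * (154 / 100)) := by
  have h0 : 0 ≤ (c - 3684 / 1000) * (w ^ 2 * (3 - w)) :=
    mul_nonneg (by linarith) (mul_nonneg (by positivity) (by linarith))
  have key : ∀ v : ℝ, 0 ≤ w * (w - v) ^ 2 ∧ 0 ≤ (1 - w) * (w - v) ^ 2 := fun v =>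
    ⟨mul_nonneg hw0 (sq_nonneg _), mul_nonneg (by linarith) (sq_nonneg _)⟩
  refine ⟨?_, ?_, ?_, ?_, ?_⟩
  · nlinarith [key (56 / 1000), sq_nonneg (w - 56 / 1000)]
  · nlinarith [key (98 / 1000), sq_nonneg (w - 98 / 1000)]
  · nlinarith [key (130 / 1000), sq_nonneg (w - 130 / 1000)]
  · nlinarith [key (175 / 1000), sq_nonneg (w - 175 / 1000)]
  · nlinarith [key (208 / 1000), sq_nonneg (w - 208 / 1000)]

/-- the values of `b` -/
theorem bval {s c b : ℝ} (hc : 3684 / 1000 ≤ c) (_hs : 0 ≤ s)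
    (hb : 0 ≤ 112243 / 10000 - b - 555894 / 100000 * s - s ^ 2)
    (h : 75 / 2 ≤ (112243 / 10000 - b - 555894 / 100000 * s - s ^ 2) * (3684 / 1000 + 7 * s ^ 2)) :
    b ≤ 112243 / 10000 - (75 / 2) / (c + 7 * s ^ 2) - 555894 / 100000 * s - s ^ 2 := by
  have hpos : 0 < c + 7 * s ^ 2 := by positivity
  have h1 : (75 / 2) / (c + 7 * s ^ 2) ≤ 112243 / 10000 - b - 555894 / 100000 * s - s ^ 2 := by
    rw [div_le_iff₀ hpos]
    refine h.trans (mul_le_mul_of_nonneg_left ?_ hb)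
    linarith
  linarith

theorem main_ineq {c s w : ℝ} (hc : 3684 / 1000 ≤ c) (hs0 : 0 ≤ s) (hs1 : s ^ 2 ≤ 62 / 100)
    (hw0 : 0 ≤ w) (hw1 : w ≤ 1) :
    0 ≤ c * w ^ 2 * (3 - w) - s ^ 2 * (7 * (3 * w - 3 * w ^ 2 + w ^ 3) - 643785 / 100000 * w) +
      s ^ 2 * (112243 / 10000 - (75 / 2) / (c + 7 * s ^ 2) - 555894 / 100000 * s - s ^ 2) := by
  have hk : 0 ≤ c * w ^ 2 * (3 - w) :=
    mul_nonneg (mul_nonneg (by linarith) (by positivity)) (by linarith)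
  obtain ⟨c1, c2, c3, c4, c5⟩ := cub hc hw0 hw1
  have step : ∀ b y2 : ℝ, s ^ 2 ≤ y2 → 0 < y2 →
      (0 ≤ c * w ^ 2 * (3 - w) - y2 * (7 * (3 * w - 3 * w ^ 2 + w ^ 3) - 643785 / 100000 * w) +
      y2 * b) → 0 ≤ 112243 / 10000 - b - 555894 / 100000 * s - s ^ 2 →
      75 / 2 ≤ (112243 / 10000 - b - 555894 / 100000 * s - s ^ 2) * (3684 / 1000 + 7 * s ^ 2) →
      0 ≤ c * w ^ 2 * (3 - w) - s ^ 2 * (7 * (3 * w - 3 * w ^ 2 + w ^ 3) - 643785 / 100000 * w) +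
      s ^ 2 * (112243 / 10000 - (75 / 2) / (c + 7 * s ^ 2) - 555894 / 100000 * s - s ^ 2) := by
    intro b y2 h1 h2 h3 h4 h5
    have h6 := bval hc hs0 h4 h5
    have h7 := fin (sq_nonneg s) h1 h2 hk h3
    have h8 := mul_le_mul_of_nonneg_left h6 (sq_nonneg s)
    linarith
  rcases le_total (s ^ 2) (1 / 10) with g1 | g1
  · have u1 : s ≤ 3163 / 10000 := by nlinarith
    apply step _ _ g1 (by norm_num) c1
    · nlinarith
    · nlinarith [sq_nonneg (s - 16 / 100), mul_nonneg hs0 (sq_nonneg (s - 16 / 100)),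
        mul_nonneg (sub_nonneg.2 u1) (sq_nonneg (s - 16 / 100)),
        mul_nonneg (sub_nonneg.2 u1) hs0, mul_nonneg (mul_nonneg (sub_nonneg.2 u1) hs0) hs0,
        mul_nonneg (mul_nonneg (mul_nonneg (sub_nonneg.2 u1) hs0) hs0) hs0]
  · have l1 : 3162 / 10000 ≤ s := by nlinarith
    rcases le_total (s ^ 2) (1 / 5) with g2 | g2
    · have u2 : s ≤ 4473 / 10000 := by nlinarith
      apply step _ _ g2 (by norm_num) c2
      · nlinarith
      · nlinarith [mul_nonneg (sub_nonneg.2 l1) (sub_nonneg.2 u2), mul_nonneg (mul_nonneg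
          (sub_nonneg.2 l1) (sub_nonneg.2 u2)) hs0, mul_nonneg (mul_nonneg (mul_nonneg
          (sub_nonneg.2 l1) (sub_nonneg.2 u2)) hs0) hs0]
    · have l2 : 4472 / 10000 ≤ s := by nlinarith
      rcases le_total (s ^ 2) (3 / 10) with g3 | g3
      · have u3 : s ≤ 5478 / 10000 := by nlinarith
        apply step _ _ g3 (by norm_num) c3
        · nlinarith
        · nlinarith [mul_nonneg (sub_nonneg.2 l2) (sub_nonneg.2 u3), mul_nonneg (mul_nonneg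
            (sub_nonneg.2 l2) (sub_nonneg.2 u3)) hs0, mul_nonneg (mul_nonneg (mul_nonneg
            (sub_nonneg.2 l2) (sub_nonneg.2 u3)) hs0) hs0]
      · have l3 : 5477 / 10000 ≤ s := by nlinarith
        rcases le_total (s ^ 2) (45 / 100) with g4 | g4
        · have u4 : s ≤ 6709 / 10000 := by nlinarith
          apply step _ _ g4 (by norm_num) c4
          · nlinarith
          · nlinarith [mul_nonneg (sub_nonneg.2 l3) (sub_nonneg.2 u4), mul_nonneg (mul_nonneg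
              (sub_nonneg.2 l3) (sub_nonneg.2 u4)) hs0, mul_nonneg (mul_nonneg (mul_nonneg
              (sub_nonneg.2 l3) (sub_nonneg.2 u4)) hs0) hs0]
        · have l4 : 6708 / 10000 ≤ s := by nlinarith
          have u5 : s ≤ 7875 / 10000 := by nlinarith
          apply step _ _ hs1 (by norm_num) c5
          · nlinarith
          · nlinarith [mul_nonneg (sub_nonneg.2 l4) (sub_nonneg.2 u5), mul_nonneg (mul_nonneg
              (sub_nonneg.2 l4) (sub_nonneg.2 u5)) hs0, mul_nonneg (mul_nonneg (mul_nonneg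
              (sub_nonneg.2 l4) (sub_nonneg.2 u5)) hs0) hs0]

theorem PI' {c y A2 A3 A4 A5 : ℝ} (hc0 : 0 < c) (hc : c ^ 3 = 50) (hy0 : 0 ≤ y)
    (hy1 : y ≤ 31 / 50) (h2 : 0 ≤ A2) (h4 : 0 ≤ A4)
    (h : 5 / 2 * A2 ^ 3 + 8 / 3 * A3 ^ 2 ≤ y ^ 3) (h4' : A4 ^ 2 ≤ A2 * y ^ 3)
    (h5 : A5 ^ 2 ≤ A4 * y ^ 3) :
    1 + 15 * A2 + 20 * A3 + 15 * A4 + 6 * A5 + y ^ 3 ≤ 1 + 3 * c * y + 241 / 10 * y ^ 2 := by
  rcases eq_or_lt_of_le hy0 with hy | hy
  · -- `y = 0`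
    subst hy
    have e2 : A2 = 0 := by
      by_contra hne
      have : 0 < A2 := lt_of_le_of_ne h2 (Ne.symm hne)
      have h3 : 0 < A2 ^ 3 := by positivity
      nlinarith [sq_nonneg A3]
    subst e2
    have e3 : A3 = 0 := by
      have : A3 ^ 2 ≤ 0 := by nlinarith
      exact pow_eq_zero_iff (two_ne_zero) |>.1 (le_antisymm this (sq_nonneg _))
    have e4 : A4 = 0 := by
      have : A4 ^ 2 ≤ 0 := by nlinarith
      exact pow_eq_zero_iff (two_ne_zero) |>.1 (le_antisymm this (sq_nonneg _))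
    subst e4
    have e5 : A5 = 0 := by
      have : A5 ^ 2 ≤ 0 := by nlinarith
      exact pow_eq_zero_iff (two_ne_zero) |>.1 (le_antisymm this (sq_nonneg _))
    rw [e3, e5]
    norm_num
  have hc1 : 3684 / 1000 ≤ c := by
    by_contra hh
    push Not at hh
    have : c ^ 3 < (3684 / 1000) ^ 3 := pow_lt_pow_left₀ hh hc0.le (by norm_num)
    rw [hc] at this
    norm_num at this
  have hc2 : c ≤ 368404 / 100000 := by
    by_contra hh
    push Not at hh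
    have : (368404 / 100000 : ℝ) ^ 3 < c ^ 3 := pow_lt_pow_left₀ hh (by norm_num) (by norm_num)
    rw [hc] at this
    norm_num at this
  -- `s`
  obtain ⟨s, hs⟩ : ∃ s : ℝ, s = √y := ⟨_, rfl⟩
  have hs0 : 0 < s := by rw [hs]; exact Real.sqrt_pos.2 hy
  have hsy : y = s ^ 2 := by rw [hs, Real.sq_sqrt hy0]
  -- `a`, `α`, `β`
  obtain ⟨a, ha⟩ : ∃ a : ℝ, a = c / 5 := ⟨_, rfl⟩
  have ha0 : 0 < a := by rw [ha]; positivity
  have ha3 : a ^ 3 = 2 / 5 := by rw [ha, div_pow, hc]; norm_num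
  obtain ⟨α, hα⟩ : ∃ α : ℝ, α = √a := ⟨_, rfl⟩
  have hα0 : 0 < α := by rw [hα]; exact Real.sqrt_pos.2 ha0
  have hα2 : α ^ 2 = a := by rw [hα, Real.sq_sqrt ha0.le]
  have hα1 : α ≤ 85838 / 100000 := by
    have : α ^ 2 ≤ (85838 / 100000) ^ 2 := by rw [hα2, ha]; norm_num; linarith
    exact le_of_pow_le_pow_left₀ (two_ne_zero) (by norm_num) this
  obtain ⟨β, hβ⟩ : ∃ β : ℝ, β = √α := ⟨_, rfl⟩
  have hβ0 : 0 < β := by rw [hβ]; exact Real.sqrt_pos.2 hα0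
  have hβ2 : β ^ 2 = α := by rw [hβ, Real.sq_sqrt hα0.le]
  have hβ1 : β ≤ 92649 / 100000 := by
    have : β ^ 2 ≤ (92649 / 100000) ^ 2 := by rw [hβ2]; norm_num; linarith
    exact le_of_pow_le_pow_left₀ (two_ne_zero) (by norm_num) this
  -- `q`
  obtain ⟨q, hq⟩ : ∃ q : ℝ, q = √(A2 / (a * y)) := ⟨_, rfl⟩
  have hq0 : 0 ≤ q := by rw [hq]; exact Real.sqrt_nonneg _
  have hq2 : q ^ 2 = A2 / (a * y) := by rw [hq, Real.sq_sqrt (by positivity)]
  have hA2 : A2 = a * q ^ 2 * y := by rw [hq2]; field_simp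
  have hA2' : A2 ≤ a * y := by
    have : A2 ^ 3 ≤ (a * y) ^ 3 := by
      rw [mul_pow, ha3]
      nlinarith [sq_nonneg A3]
    exact le_of_pow_le_pow_left₀ (by norm_num) (by positivity) this
  have hq1 : q ≤ 1 := by
    have : q ^ 2 ≤ 1 := by rw [hq2, div_le_one (by positivity)]; exact hA2'
    nlinarith
  obtain ⟨w, hw⟩ : ∃ w : ℝ, w = 1 - q ^ 2 := ⟨_, rfl⟩
  have hw0 : 0 ≤ w := by rw [hw]; nlinarith
  have hw1 : w ≤ 1 := by rw [hw]; nlinarith [sq_nonneg q]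
  have hqw : q ≤ 1 - w / 2 := by rw [hw]; nlinarith
  -- `A4`, `A5`
  have hA4 : A4 ≤ α * q * y ^ 2 := by
    have : A4 ^ 2 ≤ (α * q * y ^ 2) ^ 2 := by
      refine h4'.trans (le_of_eq ?_)
      rw [hA2, mul_pow, mul_pow, hα2]
      ring
    exact le_of_pow_le_pow_left₀ (two_ne_zero) (by positivity) this
  have hA5 : A5 ≤ β * s ^ 5 := by
    have : A5 ^ 2 ≤ (β * s ^ 5) ^ 2 := by
      refine h5.trans ?_
      rw [mul_pow, hβ2]
      calc A4 * y ^ 3 ≤ (α * q * y ^ 2) * y ^ 3 :=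
            mul_le_mul_of_nonneg_right hA4 (by positivity)
        _ = α * (s ^ 5) ^ 2 * q := by rw [hsy]; ring
        _ ≤ α * (s ^ 5) ^ 2 * 1 := mul_le_mul_of_nonneg_left hq1 (by positivity)
        _ = _ := mul_one _
    exact le_trans (le_abs_self _) (abs_le_of_sq_le_sq this (by positivity))
  -- `A3`
  obtain ⟨Th, hTh⟩ : ∃ Th : ℝ, Th = c + 7 * y := ⟨_, rfl⟩
  have hTh0 : 0 < Th := by rw [hTh]; positivity
  have hA3s : 8 / 3 * A3 ^ 2 ≤ y ^ 3 * (1 - (q ^ 2) ^ 3) := by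
    have e : 5 / 2 * A2 ^ 3 = y ^ 3 * (q ^ 2) ^ 3 := by
      rw [hA2]
      calc 5 / 2 * (a * q ^ 2 * y) ^ 3 = 5 / 2 * a ^ 3 * (y ^ 3 * (q ^ 2) ^ 3) := by ring
        _ = _ := by rw [ha3]; ring
    rw [e] at h
    linarith
  have hone : 0 ≤ 1 - (q ^ 2) ^ 3 := by
    have : (q ^ 2) ^ 3 ≤ 1 := pow_le_one₀ (sq_nonneg q) (by nlinarith)
    linarith
  have hA3 : 20 * A3 ≤ Th * y * (1 - (q ^ 2) ^ 3) + (75 / 2) * y ^ 2 / Th := by
    obtain ⟨P, hP⟩ : ∃ P : ℝ, P = Th * y * (1 - (q ^ 2) ^ 3) := ⟨_, rfl⟩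
    obtain ⟨Q, hQ⟩ : ∃ Q : ℝ, Q = (75 / 2) * y ^ 2 / Th := ⟨_, rfl⟩
    have hP0 : 0 ≤ P := by rw [hP]; positivity
    have hQ0 : 0 ≤ Q := by rw [hQ]; positivity
    have hPQ : P * Q = (75 / 2) * y ^ 3 * (1 - (q ^ 2) ^ 3) := by
      rw [hP, hQ]; field_simp
    rw [← hP, ← hQ]
    have : (20 * A3) ^ 2 ≤ (P + Q) ^ 2 := by nlinarith [sq_nonneg (P - Q)]
    exact le_trans (le_abs_self _) (abs_le_of_sq_le_sq this (by positivity))
  -- the end
  have hmain := main_ineq hc1 hs0.le (by rw [← hsy]; linarith) hw0 hw1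
  have hq3 : (q ^ 2) ^ 3 = 1 - (3 * w - 3 * w ^ 2 + w ^ 3) := by rw [hw]; ring
  have hqq : q ^ 2 = 1 - w := by rw [hw]; ring
  have f4 : 15 * A4 ≤ (128757 / 10000) * (1 - w / 2) * y ^ 2 := by
    calc 15 * A4 ≤ 15 * (α * q * y ^ 2) := by linarith
      _ = 15 * (α * q) * y ^ 2 := by ring
      _ ≤ 15 * ((85838 / 100000) * (1 - w / 2)) * y ^ 2 := by
          apply mul_le_mul_of_nonneg_right _ (by positivity)
          apply mul_le_mul_of_nonneg_left _ (by norm_num)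
          exact mul_le_mul hα1 hqw hq0 (by norm_num)
      _ = _ := by ring
  have f5 : 6 * A5 ≤ (555894 / 100000) * s * y ^ 2 := by
    calc 6 * A5 ≤ 6 * (β * s ^ 5) := by linarith
      _ = 6 * β * (s * y ^ 2) := by rw [hsy]; ring
      _ ≤ 6 * (92649 / 100000) * (s * y ^ 2) := by
          apply mul_le_mul_of_nonneg_right _ (by positivity)
          linarith
      _ = _ := by ring
  have f3 : (75 / 2) * y ^ 2 / Th = y ^ 2 * ((75 / 2) / (c + 7 * s ^ 2)) := by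
    rw [hTh, ← hsy]; ring
  have f2 : 15 * A2 = 3 * c * (1 - w) * y := by
    rw [hA2, hqq, ha]; ring
  rw [← hsy] at hmain
  have hmul := mul_nonneg hy0 hmain
  rw [f3] at hA3
  rw [hq3, hTh, ← hsy] at hA3
  rw [f2]
  nlinarith


/-- LS10: the real inequality -/
theorem PI {y A2 A3 A4 A5 : ℝ} (hy0 : 0 ≤ y) (hy1 : y ≤ 31 / 50) (h2 : 0 ≤ A2) (h4 : 0 ≤ A4)
    (h : 5 / 2 * A2 ^ 3 + 8 / 3 * A3 ^ 2 ≤ y ^ 3) (h4' : A4 ^ 2 ≤ A2 * y ^ 3)
    (h5 : A5 ^ 2 ≤ A4 * y ^ 3) :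
    1 + 15 * A2 + 20 * A3 + 15 * A4 + 6 * A5 + y ^ 3 ≤
      1 + 3 * Pool.Agent.N356.SP.c3 * y + 241 / 10 * y ^ 2 := by
  refine PI' (Real.rpow_pos_of_pos (by norm_num) _) ?_ hy0 hy1 h2 h4 h h4' h5
  unfold Pool.Agent.N356.SP.c3
  rw [← Real.rpow_natCast, ← Real.rpow_mul (by norm_num)]
  norm_num

end Pool.Agent.N50.LS
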